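import Pool.Agent.Helper355.RunCore2
import Pool.Agent.Helper355.RunLow2

set_option autoImplicit false

namespace Pool.Agent.Results.MP_d5b6a6_nt.SieveBounds

open Filter Pool.Agent.Helper355.Run

/-- The block `a, a + 1, ..., a + l - 1` lies in `[x, 2x]` and all its elements `n` have more than
`log log n` distinct prime factors. -/
def IsRun (x a l : ℕ) : Prop :=
  x ≤ a ∧ a + l ≤ 2 * x + 1 ∧
    ∀ n : ℕ, a ≤ n → n < a + l → Real.log (Real.log n) < (n.primeFactors.card : ℝ)

/-- `L(x)`: the length of the longest such block. -/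
noncomputable def L (x : ℕ) : ℕ := sSup {l : ℕ | ∃ a : ℕ, IsRun x a l}

theorem bdd (x : ℕ) : BddAbove {l : ℕ | ∃ a : ℕ, IsRun x a l} := by
  refine ⟨x + 1, ?_⟩
  rintro l ⟨a, h1, h2, -⟩
  omega

theorem le_L {x a l : ℕ} (h : IsRun x a l) : l ≤ L x := le_csSup (bdd x) ⟨a, h⟩

theorem L_mem (x : ℕ) : ∃ a : ℕ, IsRun x a (L x) := by
  have h : L x ∈ {l : ℕ | ∃ a : ℕ, IsRun x a l} := by
    refine Nat.sSup_mem ⟨0, x, le_rfl, by omega, ?_⟩ (bdd x)
    intro n h1 h2
    omega
  exact h

theorem theta_lower : ∃ n0 : ℕ, ∀ n : ℕ, n0 ≤ n → (n : ℝ) / 2 ≤ Chebyshev.theta n := by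
  have e3 : ∀ᶠ T : ℝ in atTop, ‖Real.log T‖ ≤ 0.01 * ‖T ^ (1 / 2 : ℝ)‖ :=
    (isLittleO_log_rpow_atTop (by norm_num : (0 : ℝ) < 1 / 2)).bound (by norm_num)
  have e4 : ∀ᶠ T : ℝ in atTop, ∀ n : ℕ, (n : ℝ) = T → (n : ℝ) / 2 ≤ Chebyshev.theta n := by
    have e5 : ∀ᶠ T : ℝ in atTop, ‖Real.log (T + 1)‖ ≤ 0.01 * ‖(T + 1) ^ (1 / 2 : ℝ)‖ :=
      (tendsto_atTop_add_const_right atTop 1 tendsto_id).eventually e3
    filter_upwards [e3, e5, eventually_ge_atTop 100] with T h3 h5 h4 n hn
    have h6 := Chebyshev.theta_ge n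
    have hT0 : 0 < T := by linarith
    have hl : 0 ≤ Real.log T := Real.log_nonneg (by linarith)
    have hl1 : 0 ≤ Real.log (T + 1) := Real.log_nonneg (by linarith)
    rw [Real.norm_of_nonneg hl, Real.norm_of_nonneg (by positivity)] at h3
    rw [Real.norm_of_nonneg hl1, Real.norm_of_nonneg (by positivity)] at h5
    rw [← Real.sqrt_eq_rpow] at h3 h5
    have hs : Real.sqrt T * Real.sqrt T = T := Real.mul_self_sqrt hT0.le
    have hs1 : Real.sqrt (T + 1) ≤ T + 1 := by
      rw [Real.sqrt_le_left (by linarith)]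
      nlinarith
    have hs0 : 0 ≤ Real.sqrt T := Real.sqrt_nonneg T
    rw [hn] at h6 ⊢
    have h7 := Real.log_two_gt_d9
    have h8 : 2 * Real.sqrt T * Real.log T ≤ 0.02 * T := by nlinarith
    have h9 : 0.69 * T ≤ T * Real.log 2 := by nlinarith
    linarith
  obtain ⟨n0, hn0⟩ := eventually_atTop.1 (tendsto_natCast_atTop_atTop.eventually e4)
  exact ⟨n0, fun n hn => hn0 n hn n rfl⟩

theorem primorial_succ_le (n : ℕ) : primorial (n + 1) ≤ (n + 1) * primorial n := by
  unfold primorial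
  rw [Finset.range_add_one (n := n + 1), Finset.filter_insert]
  split_ifs with h
  · rw [Finset.prod_insert (by simp)]
  · exact Nat.le_mul_of_pos_left _ (Nat.succ_pos n)

theorem theta_nat (n : ℕ) : Chebyshev.theta n = Real.log (primorial n) := by
  rw [Chebyshev.theta_eq_log_primorial, Nat.floor_natCast]

theorem choose_y {n0 : ℕ} (hn0 : ∀ n : ℕ, n0 ≤ n → (n : ℝ) / 2 ≤ Chebyshev.theta n)
    {B : ℝ} (hB : 0 ≤ B) (hBn : (n0 : ℝ) ≤ 2 * B) : ∃ y : ℕ, Chebyshev.theta y ≤ B ∧
      B - Real.log ((y : ℝ) + 1) ≤ Chebyshev.theta y ∧ (y : ℝ) ≤ 2 * B := by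
  classical
  have hex : ∃ y : ℕ, B < Chebyshev.theta ((y + 1 : ℕ) : ℝ) := by
    refine ⟨n0 + ⌈2 * B⌉₊, ?_⟩
    have h1 := hn0 (n0 + ⌈2 * B⌉₊ + 1) (by omega)
    have h2 := Nat.le_ceil (2 * B)
    have h3 : (0 : ℝ) ≤ n0 := by positivity
    push_cast at h1 ⊢
    linarith
  have h1 := Nat.find_spec hex
  have h2 : Chebyshev.theta (Nat.find hex) ≤ B := by
    rcases Nat.eq_zero_or_pos (Nat.find hex) with h | h
    · rw [h]
      have : Chebyshev.theta ((0 : ℕ) : ℝ) = 0 := by
        rw [Nat.cast_zero]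
        exact Chebyshev.theta_zero
      rw [this]
      exact hB
    · have h3 := Nat.find_min hex (show Nat.find hex - 1 < Nat.find hex by omega)
      rw [Nat.sub_add_cancel h] at h3
      exact not_lt.1 h3
  refine ⟨Nat.find hex, h2, ?_, ?_⟩
  · set y := Nat.find hex
    have h3 : Chebyshev.theta ((y + 1 : ℕ) : ℝ) ≤ Real.log ((y : ℝ) + 1) + Chebyshev.theta y := by
      rw [theta_nat, theta_nat]
      have h4 : (primorial (y + 1) : ℝ) ≤ ((y : ℝ) + 1) * primorial y := by
        exact_mod_cast primorial_succ_le y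
      have h5 : (0 : ℝ) < primorial (y + 1) := by exact_mod_cast primorial_pos _
      have h6 : (0 : ℝ) < primorial y := by exact_mod_cast primorial_pos _
      have h7 := Real.log_le_log h5 h4
      rwa [Real.log_mul (by positivity) h6.ne'] at h7
    linarith
  · rcases le_or_gt n0 (Nat.find hex) with h | h
    · have := hn0 _ h
      linarith
    · have h3 : ((Nat.find hex : ℕ) : ℝ) ≤ n0 := by exact_mod_cast h.le
      linarith

theorem lower_eps {ε : ℝ} (h0 : 0 < ε) (h1 : ε ≤ 1) : ∀ᶠ T : ℝ in atTop, ∀ x : ℕ,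
    Real.log x = T → (1 - ε) * T / (Real.log T) ^ 2 ≤ L x := by
  obtain ⟨n0, hn0⟩ := theta_lower
  have e1 : ∀ᶠ T : ℝ in atTop, 40 / ε ≤ Real.log T :=
    Real.tendsto_log_atTop.eventually_ge_atTop _
  have e2 : ∀ᶠ T : ℝ in atTop, ‖Real.log T ^ 2‖ ≤ (ε / 1000) * ‖id T‖ :=
    (Real.isLittleO_pow_log_id_atTop (n := 2)).bound (by positivity)
  filter_upwards [e1, e2, eventually_ge_atTop (n0 : ℝ), eventually_ge_atTop 1000,
    eventually_ge_atTop (8 / ε)] with T h2 h3 h4 h5 h6 x hx
  set U := Real.log T with hU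
  have hT0 : 0 < T := by linarith
  have hU40 : 40 ≤ U := by
    refine le_trans ?_ h2
    rw [le_div_iff₀ h0]
    linarith
  have hUε : 40 ≤ ε * U := by
    rw [div_le_iff₀ h0] at h2
    linarith
  have hTε : 8 ≤ ε * T := by
    rw [div_le_iff₀ h0] at h6
    linarith
  rw [Real.norm_of_nonneg (by positivity), id, Real.norm_of_nonneg hT0.le] at h3
  have hx0 : 0 < x := by
    rcases Nat.eq_zero_or_pos x with h | h
    · rw [h] at hx
      simp at hx
      linarith
    · exact h
  have hxT : (x : ℝ) = Real.exp T := by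
    rw [← hx, Real.exp_log (by exact_mod_cast hx0)]
  set B := (1 - ε / 8) * T with hBd
  have hεT : ε * T ≤ T := by
    have := mul_le_mul_of_nonneg_right h1 hT0.le
    linarith
  have hεT0 : 0 < ε * T := mul_pos h0 hT0
  have hB1 : T / 2 ≤ B := by rw [hBd]; linarith
  have hB2 : B ≤ T := by rw [hBd]; linarith
  have hUU : 40 * U ≤ U * U := mul_le_mul_of_nonneg_right hU40 (by linarith)
  have hUU2 : 40 * U ≤ ε * U * U := mul_le_mul_of_nonneg_right hUε (by linarith)
  obtain ⟨y, hy1, hy2, hy3⟩ := choose_y hn0 (show 0 ≤ B by linarith) (show (n0 : ℝ) ≤ 2 * B by linarith)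
  have hyT : (y : ℝ) ≤ 2 * T := by linarith
  have hlog2 := Real.log_two_lt_d9
  have hlogy1 : Real.log ((y : ℝ) + 1) ≤ U + 2 := by
    have h7 : Real.log ((y : ℝ) + 1) ≤ Real.log (4 * T) :=
      Real.log_le_log (by positivity) (by linarith)
    rw [Real.log_mul (by norm_num) (by positivity)] at h7
    have h8 : Real.log 4 = 2 * Real.log 2 := by
      rw [show (4 : ℝ) = 2 ^ 2 by norm_num, Real.log_pow]
      norm_num
    linarith
  have hlogy : Real.log y ≤ U + 1 := by
    rcases Nat.eq_zero_or_pos y with h | h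
    · rw [h]
      simp
      linarith
    · have h7 : Real.log (y : ℝ) ≤ Real.log (2 * T) :=
        Real.log_le_log (by exact_mod_cast h) hyT
      rw [Real.log_mul (by norm_num) (by positivity)] at h7
      linarith
  set K := ⌊Real.log (Real.log ((2 * x : ℕ) : ℝ))⌋₊ + 1 with hK
  have hK0 : 0 < K := Nat.succ_pos _
  have hKgt : Real.log (Real.log ((2 * x : ℕ) : ℝ)) < K := by
    rw [hK]
    push_cast
    exact Nat.lt_floor_add_one _
  have hlog2x : Real.log ((2 * x : ℕ) : ℝ) ≤ 2 * T := by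
    push_cast
    rw [Real.log_mul (by norm_num) (by positivity), hx]
    linarith
  have hlog2x' : T ≤ Real.log ((2 * x : ℕ) : ℝ) := by
    push_cast
    rw [Real.log_mul (by norm_num) (by positivity), hx]
    have := Real.log_two_gt_d9
    linarith
  have hKle : (K : ℝ) ≤ U + 2 := by
    have h5 : Real.log (Real.log ((2 * x : ℕ) : ℝ)) ≤ U + 1 := by
      have h6 : Real.log (Real.log ((2 * x : ℕ) : ℝ)) ≤ Real.log (2 * T) :=
        Real.log_le_log (by linarith) hlog2x
      rw [Real.log_mul (by norm_num) (by positivity)] at h6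
      linarith
    have h7 : 0 ≤ Real.log (Real.log ((2 * x : ℕ) : ℝ)) := Real.log_nonneg (by linarith)
    have h8 := Nat.floor_le h7
    have h9 : (K : ℝ) = (⌊Real.log (Real.log ((2 * x : ℕ) : ℝ))⌋₊ : ℝ) + 1 := by
      rw [hK]
      exact Nat.cast_succ _
    linarith
  set P := Nat.primeCounting y with hP
  have hPlog : (1 - ε / 4) * T ≤ P * (U + 1) := by
    have h5 := Chebyshev.theta_le_psi (y : ℝ)
    have h6 := Chebyshev.psi_le_primeCounting_mul_log y
    have h9 : (P : ℝ) * Real.log y ≤ P * (U + 1) :=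
      mul_le_mul_of_nonneg_left hlogy (by positivity)
    have h10 : U + 2 ≤ ε / 8 * T := by
      have h11 : U ^ 2 = U * U := sq U
      rw [h11] at h3
      linarith
    rw [hBd] at hy2
    linarith
  have hPle : P ≤ y + 1 := by
    rw [hP, Nat.primeCounting, Nat.primeCounting']
    exact Nat.count_le Nat.Prime
  set l := P / K with hl
  have hlK : l * K ≤ P := Nat.div_mul_le_self _ _
  have hlK2 : P < (l + 1) * K := by
    have := Nat.lt_div_mul_add hK0 (a := P)
    rw [← hl] at this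
    linarith
  have hlP : l ≤ P := Nat.div_le_self _ _
  have hfit : primorial y + l ≤ x + 1 := by
    have h7 : (primorial y : ℝ) ≤ Real.exp B := by
      have h8 : (0 : ℝ) < primorial y := by exact_mod_cast primorial_pos _
      rw [← Real.exp_log h8, ← theta_nat]
      exact Real.exp_le_exp.2 hy1
    have h8 : (l : ℝ) ≤ Real.exp B := by
      have h9 : (l : ℝ) ≤ y + 1 := by exact_mod_cast hlP.trans hPle
      have h10 := Real.quadratic_le_exp_of_nonneg (show 0 ≤ B by linarith)
      have h11 : 500 * B ≤ B * B := mul_le_mul_of_nonneg_right (by linarith) (by linarith)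
      have h12 : B ^ 2 = B * B := sq B
      rw [h12] at h10
      linarith
    have h9 : 2 * Real.exp B ≤ Real.exp T := by
      have h10 : Real.exp T = Real.exp (ε / 8 * T) * Real.exp B := by
        rw [← Real.exp_add, hBd]
        congr 1
        ring
      have h11 := Real.add_one_le_exp (ε / 8 * T)
      rw [h10]
      exact mul_le_mul_of_nonneg_right (by linarith) (Real.exp_pos _).le
    have h10 : ((primorial y + l : ℕ) : ℝ) ≤ ((x + 1 : ℕ) : ℝ) := by
      push_cast
      rw [hxT]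
      linarith
    exact_mod_cast h10
  obtain ⟨a, ha1, ha2, ha3⟩ := low_core2 hlK hx0 hfit
  have hrun : IsRun x a l := by
    refine ⟨ha1, ha2, fun n hn1 hn2 => ?_⟩
    have h5 : (K : ℝ) ≤ n.primeFactors.card := by exact_mod_cast ha3 n hn1 hn2
    refine lt_of_le_of_lt ?_ (hKgt.trans_le h5)
    have h6 : (x : ℝ) ≤ n := by exact_mod_cast ha1.trans hn1
    have h7 : (n : ℝ) ≤ ((2 * x : ℕ) : ℝ) := by exact_mod_cast (by omega : n ≤ 2 * x)
    have h8 : 0 < (x : ℝ) := by exact_mod_cast hx0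
    have h9 : T ≤ Real.log n := by
      rw [← hx]
      exact Real.log_le_log h8 h6
    exact Real.log_le_log (by linarith) (Real.log_le_log (by linarith) h7)
  have hfin : (l : ℝ) ≤ L x := by exact_mod_cast le_L hrun
  refine le_trans ?_ hfin
  have h7 : (P : ℝ) ≤ (l + 1) * K := by exact_mod_cast hlK2.le
  have hA : (1 - ε / 4) * T ≤ (l + 1) * ((U + 2) * (U + 1)) := by
    calc (1 - ε / 4) * T ≤ P * (U + 1) := hPlog
      _ ≤ ((l + 1) * K) * (U + 1) := mul_le_mul_of_nonneg_right h7 (by linarith)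
      _ ≤ ((l + 1) * (U + 2)) * (U + 1) :=
          mul_le_mul_of_nonneg_right (mul_le_mul_of_nonneg_left hKle (by positivity)) (by linarith)
      _ = _ := by ring
  have hB' : (U + 2) * (U + 1) ≤ (1 + ε / 8) * U ^ 2 := by
    have h8 : (1 + ε / 8) * U ^ 2 - (U + 2) * (U + 1) = 1 / 8 * (ε * U * U) - 3 * U - 2 := by ring
    linarith
  have hC' : (1 - ε / 4) * T ≤ (l + 1) * ((1 + ε / 8) * U ^ 2) :=
    hA.trans (mul_le_mul_of_nonneg_left hB' (by positivity))
  have hD' : (1 - ε / 2) * T ≤ (l + 1) * U ^ 2 := by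
    have h8 : (1 + ε / 8) * ((1 - ε / 2) * T) ≤ (1 + ε / 8) * ((l + 1) * U ^ 2) := by
      have h9 : (1 + ε / 8) * ((1 - ε / 2) * T) ≤ (1 - ε / 4) * T := by
        have h11 : (1 - ε / 4) * T - (1 + ε / 8) * ((1 - ε / 2) * T)
            = 1 / 8 * (ε * T) + 1 / 16 * (ε * (ε * T)) := by ring
        have h12 : 0 < ε * (ε * T) := mul_pos h0 hεT0
        linarith
      have h10 : (l + 1) * ((1 + ε / 8) * U ^ 2) = (1 + ε / 8) * ((l + 1) * U ^ 2) := by ring
      linarith
    exact le_of_mul_le_mul_left h8 (by positivity)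
  rw [div_le_iff₀ (by positivity)]
  have h8 : (l + 1) * U ^ 2 = l * U ^ 2 + U ^ 2 := by ring
  rw [h8] at hD'
  linarith

theorem ar1 {δ : ℝ} (h0 : 0 < δ) (h1 : δ ≤ 1 / 8) :
    1 + δ ≤ (1 - δ) * (1 - 2 * δ) * (1 + 8 * δ) := by
  have h2 : (1 - δ) * (1 - 2 * δ) * (1 + 8 * δ) - (1 + δ)
      = δ * (4 - 22 * δ) + 16 * (δ * δ * δ) := by ring
  have h3 : 0 < δ * (4 - 22 * δ) := mul_pos h0 (by linarith)
  have h4 : 0 < δ * δ * δ := mul_pos (mul_pos h0 h0) h0
  linarith

theorem upper_eps {C : ℝ}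
    (hC : ∀ N : ℕ, 3 ≤ N → |∑ p ∈ (Finset.Icc 1 N).filter Nat.Prime, (1 : ℝ) / p
      - Real.log (Real.log N)| ≤ C) {ε : ℝ} (h0 : 0 < ε) (h1 : ε ≤ 1) :
    ∀ᶠ T : ℝ in atTop, ∀ x : ℕ, Real.log x = T →
    (L x : ℝ) ≤ Real.exp ((1 + ε) * T / Real.log T) := by
  have hC0 : 0 ≤ C := (abs_nonneg _).trans (hC 3 le_rfl)
  set δ := ε / 8 with hδ
  have hδ0 : 0 < δ := by positivity
  have hδ1 : δ ≤ 1 / 8 := by rw [hδ]; linarith
  have e1 : ∀ᶠ T : ℝ in atTop, 1000 * (1 + C) ≤ Real.log T :=
    Real.tendsto_log_atTop.eventually_ge_atTop _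
  have e2 : ∀ᶠ T : ℝ in atTop, ‖Real.log T ^ 2‖ ≤ (δ / 1000) * ‖id T‖ :=
    (Real.isLittleO_pow_log_id_atTop (n := 2)).bound (by positivity)
  have e3 : ∀ᶠ T : ℝ in atTop, ‖Real.log (Real.log T)‖ ≤ (δ / 100) * ‖id (Real.log T)‖ :=
    Real.tendsto_log_atTop.eventually (Real.isLittleO_log_id_atTop.bound (by positivity))
  have e4 : ∀ᶠ T : ℝ in atTop, 100 * (Real.log (128 / δ) + 2 * C) / δ ≤ Real.log T :=
    Real.tendsto_log_atTop.eventually_ge_atTop _
  filter_upwards [e1, e2, e3, e4, eventually_ge_atTop 1000000, eventually_ge_atTop (8 / ε)]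
    with T h2 h3 h4 h5 h6 h7 x hx
  by_contra hcon
  push Not at hcon
  set U := Real.log T with hU
  have hT0 : 0 < T := by linarith
  have hU1 : 1000 ≤ U := by linarith
  have hTε : 8 ≤ ε * T := by
    rw [div_le_iff₀ h0] at h7
    linarith
  rw [Real.norm_of_nonneg (by positivity), id, Real.norm_of_nonneg hT0.le] at h3
  rw [Real.norm_of_nonneg (Real.log_nonneg (by linarith)), id,
    Real.norm_of_nonneg (by linarith)] at h4
  rw [div_le_iff₀ hδ0] at h5
  have hx0 : 0 < x := by
    rcases Nat.eq_zero_or_pos x with h | h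
    · rw [h] at hx
      simp at hx
      linarith
    · exact h
  have hxT : (x : ℝ) = Real.exp T := by
    rw [← hx, Real.exp_log (by exact_mod_cast hx0)]
  obtain ⟨a, ha1, ha2, ha3⟩ := L_mem x
  set l := L x with hl
  have hU0 : 0 < U := by linarith
  have hl0 : (0 : ℝ) < l := lt_trans (Real.exp_pos _) hcon
  set G := Real.log l with hG
  have hGl : (l : ℝ) = Real.exp G := by rw [hG, Real.exp_log hl0]
  have hGT : (1 + ε) * T / U < G := by
    rw [hG, Real.lt_log_iff_exp_lt hl0]
    exact hcon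
  have hGU : (1 + ε) * T < G * U := by rwa [div_lt_iff₀ hU0] at hGT
  have hlog2 := Real.log_two_lt_d9
  have hlog2x : Real.log ((2 * x : ℕ) : ℝ) ≤ T + 1 := by
    push_cast
    rw [Real.log_mul (by norm_num) (by positivity), hx]
    linarith
  have hGle : G ≤ 2 * T := by
    have h8 : (l : ℝ) ≤ ((2 * x : ℕ) : ℝ) := by exact_mod_cast (by omega : l ≤ 2 * x)
    have h9 := Real.log_le_log hl0 h8
    linarith
  -- `δ G / U` is large
  have hGUbig : 1000 * U ≤ δ * G := by
    -- `T ≤ G U` and `U^2 ≤ δ/1000 T`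
    have h8 : T ≤ G * U := by
      have h9 : (1 + ε) * T = T + ε * T := by ring
      linarith
    have h9 : 1000 * U * U ≤ δ * G * U := by
      have h10 : δ * T ≤ δ * (G * U) := mul_le_mul_of_nonneg_left h8 hδ0.le
      have h11 : 1000 * U * U = 1000 * U ^ 2 := by ring
      have h12 : δ * G * U = δ * (G * U) := by ring
      rw [h11, h12]
      linarith
    exact le_of_mul_le_mul_right h9 hU0
  have hG0 : 0 < G := by
    by_contra hc
    push Not at hc
    have h8 : G * U ≤ 0 := mul_nonpos_of_nonpos_of_nonneg hc hU0.le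
    have h9 : 0 < (1 + ε) * T := by positivity
    linarith
  have hδG0 : 0 < δ * G := mul_pos hδ0 hG0
  have hδG8 : δ * G ≤ G / 8 := by
    have := mul_le_mul_of_nonneg_right hδ1 hG0.le
    linarith
  set t := δ * G / (64 * U) with ht
  have ht1 : 15 ≤ t := by
    rw [ht, le_div_iff₀ (by positivity)]
    linarith
  have htU : t * U = δ * G / 64 := by
    rw [ht]
    field_simp
  set z := ⌊Real.exp t⌋₊ with hz
  have hz1 : (z : ℝ) ≤ Real.exp t := Nat.floor_le (Real.exp_pos _).le
  have hz2 : Real.exp t - 1 < z := by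
    have := Nat.lt_floor_add_one (Real.exp t)
    linarith
  have hexpt := Real.add_one_le_exp t
  have hz3 : 3 ≤ z := by
    have : (3 : ℝ) ≤ z := by linarith
    exact_mod_cast this
  have hz4 : Real.exp (t / 2) ≤ z := by
    have h8 : Real.exp t = Real.exp (t / 2) * Real.exp (t / 2) := by
      rw [← Real.exp_add]
      congr 1
      ring
    have h9 := Real.add_one_le_exp (t / 2)
    have h10 : 8 * Real.exp (t / 2) ≤ Real.exp (t / 2) * Real.exp (t / 2) :=
      mul_le_mul_of_nonneg_right (by linarith) (Real.exp_pos _).le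
    linarith
  set y := ⌊Real.exp ((1 - δ) * G)⌋₊ with hy
  have hy1 : (y : ℝ) ≤ Real.exp ((1 - δ) * G) := Nat.floor_le (Real.exp_pos _).le
  have hy2 : Real.exp ((1 - δ) * G) - 1 < y := by
    have := Nat.lt_floor_add_one (Real.exp ((1 - δ) * G))
    linarith
  set D := ⌊Real.exp (δ * G)⌋₊ with hD
  have hD1 : (D : ℝ) ≤ Real.exp (δ * G) := Nat.floor_le (Real.exp_pos _).le
  have hD2 : Real.exp (δ * G) - 1 < D := by
    have := Nat.lt_floor_add_one (Real.exp (δ * G))
    linarith
  have hexpD := Real.add_one_le_exp (δ * G)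
  have hD3 : 1 ≤ D := by
    have : (1 : ℝ) ≤ D := by linarith
    exact_mod_cast this
  have ht64 : t ≤ δ * G / 64 := by
    rw [← htU]
    exact le_mul_of_one_le_right (by linarith) (by linarith)
  have htG : t ≤ G := by linarith
  have htle : t ≤ (1 - δ) * G := by
    have h8 : (1 - δ) * G = G - δ * G := by ring
    linarith
  have hzy : z ≤ y := Nat.floor_le_floor (Real.exp_le_exp.2 htle)
  have hyD : y * D ≤ l := by
    have h8 : ((y * D : ℕ) : ℝ) ≤ l := by
      push_cast
      rw [hGl]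
      have h9 : Real.exp G = Real.exp ((1 - δ) * G) * Real.exp (δ * G) := by
        rw [← Real.exp_add]
        congr 1
        ring
      rw [h9]
      exact mul_le_mul hy1 hD1 (by positivity) (Real.exp_pos _).le
    exact_mod_cast h8
  have hlogz1 : Real.log z ≤ t := by
    have h8 := Real.log_le_log (by positivity : (0 : ℝ) < z) hz1
    rwa [Real.log_exp] at h8
  have hlogz2 : t / 2 ≤ Real.log z := by
    rw [Real.le_log_iff_exp_le (by positivity)]
    exact hz4
  -- the sum of the reciprocals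
  have hS : SS z ≤ U + 1 + C := by
    have h8 := (abs_le.1 (hC z hz3)).2
    have h9 : Real.log (Real.log z) ≤ U + 1 := by
      have h10 : Real.log z ≤ 2 * T := by linarith
      have h11 := Real.log_le_log (by linarith) h10
      rw [Real.log_mul (by norm_num) (by positivity)] at h11
      linarith
    unfold SS PZ
    linarith
  have hS0 : 0 ≤ SS z := by
    unfold SS
    exact Finset.sum_nonneg fun p _ => by positivity
  set r := 2 * ⌈3 * U⌉₊ with hr
  have hr1 : 6 * U ≤ r := by
    have := Nat.le_ceil (3 * U)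
    rw [hr]
    push_cast
    linarith
  have hr2 : (r : ℝ) ≤ 6 * U + 2 := by
    have := Nat.ceil_lt_add_one (show 0 ≤ 3 * U by linarith)
    rw [hr]
    push_cast
    linarith
  have hreven : Even r := ⟨⌈3 * U⌉₊, by rw [hr]; ring⟩
  have hVlow := VV_ge z
  have hV : Real.exp (-(r : ℝ) + Real.exp 1 * SS z) ≤ VV z / 4 := by
    have h8 : Real.exp (-(r : ℝ) + Real.exp 1 * SS z) ≤ Real.exp (-(2 * SS z)) / 4 := by
      rw [le_div_iff₀ (by norm_num)]
      have h9 : (4 : ℝ) ≤ Real.exp 3 := by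
        have := Real.add_one_le_exp (3 : ℝ)
        linarith
      calc Real.exp (-(r : ℝ) + Real.exp 1 * SS z) * 4
          ≤ Real.exp (-(r : ℝ) + Real.exp 1 * SS z) * Real.exp 3 :=
            mul_le_mul_of_nonneg_left h9 (Real.exp_pos _).le
        _ = Real.exp (-(r : ℝ) + Real.exp 1 * SS z + 3) := by rw [← Real.exp_add]
        _ ≤ Real.exp (-(2 * SS z)) := by
            apply Real.exp_le_exp.2
            have h10 := Real.exp_one_lt_d9
            have h11 : Real.exp 1 * SS z ≤ 2.72 * SS z :=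
              mul_le_mul_of_nonneg_right (by linarith) hS0
            linarith
    linarith
  have hE : 3 * (z : ℝ) ^ (2 * (r + 1)) ≤ D * VV z / 4 := by
    have h8 : (z : ℝ) ^ (2 * (r + 1)) ≤ Real.exp (δ * G / 4) := by
      calc (z : ℝ) ^ (2 * (r + 1)) ≤ (Real.exp t) ^ (2 * (r + 1)) :=
            pow_le_pow_left₀ (by positivity) hz1 _
        _ = Real.exp (((2 * (r + 1) : ℕ) : ℝ) * t) := by rw [Real.exp_nat_mul]
        _ ≤ Real.exp (δ * G / 4) := by
            apply Real.exp_le_exp.2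
            push_cast
            have h9 : (2 * ((r : ℝ) + 1)) * t ≤ (16 * U) * t :=
              mul_le_mul_of_nonneg_right (by linarith) (by linarith)
            have h10 : (16 * U) * t = 16 * (t * U) := by ring
            linarith
    have h9 : Real.exp (-(3 * U)) ≤ VV z := by
      refine le_trans (Real.exp_le_exp.2 ?_) hVlow
      linarith
    have h10 : Real.exp (δ * G) / 2 ≤ D := by
      linarith
    have h11 : Real.exp (δ * G) / 2 * Real.exp (-(3 * U)) ≤ D * VV z :=
      mul_le_mul h10 h9 (Real.exp_pos _).le (by positivity)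
    have h12 : 24 * Real.exp (δ * G / 4) ≤ Real.exp (δ * G) * Real.exp (-(3 * U)) := by
      have h13 : Real.exp (δ * G) * Real.exp (-(3 * U))
          = Real.exp (3 / 4 * (δ * G) - 3 * U) * Real.exp (δ * G / 4) := by
        rw [← Real.exp_add, ← Real.exp_add]
        congr 1
        ring
      rw [h13]
      apply mul_le_mul_of_nonneg_right _ (Real.exp_pos _).le
      have h14 := Real.add_one_le_exp (3 / 4 * (δ * G) - 3 * U)
      linarith
    linarith
  have hx3 : 3 ≤ x := by
    have h8 := Real.add_one_le_exp T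
    have h9 : (3 : ℝ) ≤ x := by rw [hxT]; linarith
    exact_mod_cast h9
  have key := core2 hC hx3 ha1 ha2 ha3 hz3 hzy hD3 hyD hreven hV hE
  rw [hx] at key
  -- logarithms of `y` and `z`
  have hypos : (0 : ℝ) < y := by
    have h8 : 3 ≤ y := hz3.trans hzy
    exact_mod_cast (by omega : 0 < y)
  have hlogy1 : Real.log y ≤ G := by
    have h8 := Real.log_le_log hypos hy1
    rw [Real.log_exp] at h8
    have h9 : (1 - δ) * G = G - δ * G := by ring
    linarith
  have hlogy2 : (1 - 2 * δ) * G ≤ Real.log y := by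
    rw [Real.le_log_iff_exp_le hypos]
    have h8 : Real.exp ((1 - δ) * G) = Real.exp ((1 - 2 * δ) * G) * Real.exp (δ * G) := by
      rw [← Real.exp_add]
      congr 1
      ring
    have h9 := Real.add_one_le_exp ((1 - 2 * δ) * G)
    have h10 : 0 ≤ (1 - 2 * δ) * G := mul_nonneg (by linarith) hG0.le
    have h11 : Real.exp ((1 - 2 * δ) * G) * 3 ≤ Real.exp ((1 - 2 * δ) * G) * Real.exp (δ * G) :=
      mul_le_mul_of_nonneg_left (by linarith) (Real.exp_pos _).le
    linarith
  have hlogypos : 0 < Real.log y := by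
    have h8 : 0 < (1 - 2 * δ) * G := mul_pos (by linarith) hG0
    linarith
  have k1 : Real.log (Real.log y) - Real.log (Real.log z) ≤ Real.log (128 / δ) + Real.log U := by
    have h8 : Real.log (Real.log y) ≤ Real.log G := Real.log_le_log hlogypos hlogy1
    have h9 : Real.log (t / 2) ≤ Real.log (Real.log z) :=
      Real.log_le_log (by linarith) hlogz2
    have h10 : G = (128 / δ) * U * (t / 2) := by
      rw [ht]
      field_simp
      ring
    have h11 : Real.log G = Real.log (128 / δ) + Real.log U + Real.log (t / 2) := by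
      conv_lhs => rw [h10]
      rw [Real.log_mul (by positivity) (by positivity), Real.log_mul (by positivity) (by positivity)]
    linarith
  have k2 : Real.log ((2 * x : ℕ) : ℝ) / Real.log y ≤ (1 - δ) * U := by
    rw [div_le_iff₀ hlogypos]
    have h8 : (1 - δ) * U * ((1 - 2 * δ) * G) ≤ (1 - δ) * U * Real.log y :=
      mul_le_mul_of_nonneg_left hlogy2 (mul_nonneg (by linarith) hU0.le)
    have h9 : (1 - δ) * U * ((1 - 2 * δ) * G) = (1 - δ) * (1 - 2 * δ) * (G * U) := by ring
    have h10 : (1 - δ) * (1 - 2 * δ) * ((1 + ε) * T) ≤ (1 - δ) * (1 - 2 * δ) * (G * U) :=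
      mul_le_mul_of_nonneg_left hGU.le (mul_nonneg (by linarith) (by linarith))
    have h11 : ε = 8 * δ := by rw [hδ]; ring
    have h12 : 1 + δ ≤ (1 - δ) * (1 - 2 * δ) * (1 + ε) := by
      rw [h11]
      exact ar1 hδ0 hδ1
    have h13 : (1 + δ) * T ≤ (1 - δ) * (1 - 2 * δ) * ((1 + ε) * T) := by
      have h14 := mul_le_mul_of_nonneg_right h12 hT0.le
      have h15 : (1 - δ) * (1 - 2 * δ) * (1 + ε) * T
          = (1 - δ) * (1 - 2 * δ) * ((1 + ε) * T) := by ring
      rw [h15] at h14
      exact h14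
    have h14 : T + 1 ≤ (1 + δ) * T := by
      rw [h11] at hTε
      have h15 : (1 + δ) * T = T + 1 / 8 * (8 * δ * T) := by ring
      rw [h15]
      linarith
    rw [h9] at h8
    linarith
  have k3 : 6 * (Real.log (128 / δ) + Real.log U + 2 * C) ≤ δ * U := by
    have h8 : 0 < δ * U := mul_pos hδ0 hU0
    have h9 : δ / 100 * U = 1 / 100 * (δ * U) := by ring
    have h10 : U * δ = δ * U := mul_comm _ _
    rw [h9] at h4
    rw [h10] at h5
    linarith
  linarith

/-- Two-sided bounds for `L(x)`: for every `ε > 0` and all large `x`,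
`(1 - ε) log x / (log log x)^2 ≤ L(x) ≤ x^((1 + ε) / log log x)`. -/
theorem result (ε : ℝ) (hε : 0 < ε) : ∃ X : ℕ, ∀ x : ℕ, X ≤ x →
    (1 - ε) * Real.log x / (Real.log (Real.log x)) ^ 2 ≤ L x ∧
      (L x : ℝ) ≤ (x : ℝ) ^ ((1 + ε) / Real.log (Real.log x)) := by
  obtain ⟨C, hC⟩ := Pool.Agent.Erdos456.Mert.mertens_inv
  have h0 : 0 < min ε 1 := lt_min hε one_pos
  have ht : Tendsto (fun x : ℕ => Real.log (x : ℝ)) atTop atTop :=
    Real.tendsto_log_atTop.comp tendsto_natCast_atTop_atTop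
  have h1 := ht.eventually (lower_eps h0 (min_le_right _ _))
  have h2 := ht.eventually (upper_eps hC h0 (min_le_right _ _))
  have h3 := ht.eventually (Real.tendsto_log_atTop.eventually_ge_atTop 1)
  have h3' := ht.eventually_ge_atTop 1
  obtain ⟨X, hX⟩ := eventually_atTop.1 (h1.and (h2.and (h3.and (h3'.and (eventually_ge_atTop 1)))))
  refine ⟨X, fun x hx => ?_⟩
  obtain ⟨h4, h5, h6, h7, h8⟩ := hX x hx
  have hx0 : (0 : ℝ) < x := by exact_mod_cast h8
  have hmin : min ε 1 ≤ ε := min_le_left _ _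
  constructor
  · refine le_trans ?_ (h4 x rfl)
    apply div_le_div_of_nonneg_right _ (by positivity)
    exact mul_le_mul_of_nonneg_right (by linarith) (by linarith)
  · refine (h5 x rfl).trans ?_
    rw [Real.rpow_def_of_pos hx0]
    apply Real.exp_le_exp.2
    rw [mul_div_assoc', mul_comm (Real.log (x : ℝ)) (1 + ε)]
    apply div_le_div_of_nonneg_right _ (by linarith)
    exact mul_le_mul_of_nonneg_right (by linarith) (by linarith)

end Pool.Agent.Results.MP_d5b6a6_nt.SieveBounds
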