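import Pool.Agent.Helper355.RunCore
import Pool.Agent.Helper355.RunLow

set_option autoImplicit false

namespace Pool.Agent.Results.MP_d5b6a6_nt.TwoSided

open Filter Pool.Agent.Helper355.Run

/-- The block `a, a + 1, ..., a + l - 1` lies in `[x, 2x]` and all its elements `n` have more than
`log log n` distinct prime factors. -/
def IsRun (x a l : ℕ) : Prop :=
  x ≤ a ∧ a + l ≤ 2 * x + 1 ∧
    ∀ n : ℕ, a ≤ n → n < a + l → Real.log (Real.log n) < (n.primeFactors.card : ℝ)

/-- `L(x)`: the length of the longest such block. -/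
noncomputable def L (x : ℕ) : ℕ := sSup {l : ℕ | ∃ a : ℕ, IsRun x a l}

theorem bdd (x : ℕ) : BddAbove {l : ℕ | ∃ a : ℕ, IsRun x a l} := by
  refine ⟨x + 1, ?_⟩
  rintro l ⟨a, h1, h2, -⟩
  omega

theorem le_L {x a l : ℕ} (h : IsRun x a l) : l ≤ L x := le_csSup (bdd x) ⟨a, h⟩

theorem L_mem (x : ℕ) : ∃ a : ℕ, IsRun x a (L x) := by
  have h : L x ∈ {l : ℕ | ∃ a : ℕ, IsRun x a l} := by
    refine Nat.sSup_mem ⟨0, x, le_rfl, by omega, ?_⟩ (bdd x)
    intro n h1 h2
    omega
  exact h

theorem four_pow_le {y : ℕ} {G : ℝ} (h : (y : ℝ) ≤ G) : ((4 : ℝ)) ^ y ≤ Real.exp (1.4 * G) := by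
  have h1 : (4 : ℝ) ^ y = Real.exp (y * Real.log 4) := by
    rw [mul_comm, Real.exp_mul, Real.exp_log (by norm_num), Real.rpow_natCast]
  rw [h1]
  apply Real.exp_le_exp.2
  have h2 : Real.log 4 = 2 * Real.log 2 := by
    rw [show (4 : ℝ) = 2 ^ 2 by norm_num, Real.log_pow]
    norm_num
  have h3 := Real.log_two_lt_d9
  have h4 : (0 : ℝ) ≤ y := by positivity
  have h5 : Real.log 4 ≤ 1.4 := by rw [h2]; linarith
  nlinarith

theorem lower_aux : ∀ᶠ T : ℝ in atTop, ∀ x : ℕ, Real.log x = T →
    1 / 4 * T / (Real.log T) ^ 2 ≤ L x := by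
  have e1 : ∀ᶠ T : ℝ in atTop, 20 ≤ Real.log T := Real.tendsto_log_atTop.eventually_ge_atTop 20
  have e2 : ∀ᶠ T : ℝ in atTop, ‖Real.log T ^ 2‖ ≤ 0.05 * ‖id T‖ :=
    (Real.isLittleO_pow_log_id_atTop (n := 2)).bound (by norm_num)
  have e3 : ∀ᶠ T : ℝ in atTop, ‖Real.log T‖ ≤ 0.001 * ‖id T‖ :=
    Real.isLittleO_log_id_atTop.bound (by norm_num)
  filter_upwards [e1, e2, e3, eventually_ge_atTop 1000] with T h1 h2 h3 h4 x hx
  have hT0 : 0 < T := by linarith
  have hx0 : 0 < x := by
    rcases Nat.eq_zero_or_pos x with h | h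
    · rw [h] at hx
      simp at hx
      linarith
    · exact h
  have hxT : (x : ℝ) = Real.exp T := by
    rw [← hx, Real.exp_log (by exact_mod_cast hx0)]
  rw [Real.norm_of_nonneg (by positivity), id, Real.norm_of_nonneg hT0.le] at h2
  rw [Real.norm_of_nonneg (by linarith), id, Real.norm_of_nonneg hT0.le] at h3
  set y := ⌊T / 2⌋₊ with hy
  have hy1 : (y : ℝ) ≤ T / 2 := Nat.floor_le (by linarith)
  have hy2 : T / 2 - 1 < y := by
    have := Nat.lt_floor_add_one (T / 2)
    linarith
  set K := ⌊Real.log (Real.log ((2 * x : ℕ) : ℝ))⌋₊ + 1 with hK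
  have hK0 : 0 < K := Nat.succ_pos _
  have hKgt : Real.log (Real.log ((2 * x : ℕ) : ℝ)) < K := by
    rw [hK]
    push_cast
    exact Nat.lt_floor_add_one _
  have hlog2x : Real.log ((2 * x : ℕ) : ℝ) ≤ 2 * T := by
    push_cast
    rw [Real.log_mul (by norm_num) (by positivity), hx]
    have := Real.log_two_lt_d9
    linarith
  have hlog2x' : T ≤ Real.log ((2 * x : ℕ) : ℝ) := by
    push_cast
    rw [Real.log_mul (by norm_num) (by positivity), hx]
    have := Real.log_two_gt_d9
    linarith
  have hKle : (K : ℝ) ≤ 1.1 * Real.log T := by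
    have h5 : Real.log (Real.log ((2 * x : ℕ) : ℝ)) ≤ Real.log T + 1 := by
      have h6 : Real.log (Real.log ((2 * x : ℕ) : ℝ)) ≤ Real.log (2 * T) :=
        Real.log_le_log (by linarith) hlog2x
      rw [Real.log_mul (by norm_num) (by positivity)] at h6
      have := Real.log_two_lt_d9
      linarith
    have h7 : 0 ≤ Real.log (Real.log ((2 * x : ℕ) : ℝ)) := Real.log_nonneg (by linarith)
    have h8 := Nat.floor_le h7
    have h9 : (K : ℝ) = (⌊Real.log (Real.log ((2 * x : ℕ) : ℝ))⌋₊ : ℝ) + 1 := by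
      rw [hK]
      exact Nat.cast_succ _
    linarith
  set P := Nat.primeCounting y with hP
  have hPlog : 0.34 * T ≤ P * Real.log T := by
    have h5 := Chebyshev.psi_ge y
    have h6 := Chebyshev.psi_le_primeCounting_mul_log y
    have h7 : Real.log y ≤ Real.log T := by
      apply Real.log_le_log (by linarith)
      linarith
    have h8 : Real.log ((y : ℝ) + 1) ≤ Real.log T := by
      apply Real.log_le_log (by positivity)
      linarith
    have h9 : (P : ℝ) * Real.log y ≤ P * Real.log T :=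
      mul_le_mul_of_nonneg_left h7 (by positivity)
    have h10 := Real.log_two_gt_d9
    have h11 : 0.69 * (T / 2 - 1) ≤ y * Real.log 2 := by nlinarith
    linarith
  have hPle : P ≤ y + 1 := by
    rw [hP, Nat.primeCounting, Nat.primeCounting']
    exact Nat.count_le Nat.Prime
  set l := P / K with hl
  have hlK : l * K ≤ P := Nat.div_mul_le_self _ _
  have hlK2 : P < (l + 1) * K := by
    have := Nat.lt_div_mul_add hK0 (a := P)
    rw [← hl] at this
    linarith
  have hlP : l ≤ P := Nat.div_le_self _ _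
  have hfit : 4 ^ y + l ≤ x + 1 := by
    have h5 := four_pow_le hy1
    have h6 : (l : ℝ) ≤ T := by
      have h7 : (l : ℝ) ≤ y + 1 := by exact_mod_cast hlP.trans hPle
      linarith
    have h7 : Real.exp (1.4 * (T / 2)) + Real.exp (1.4 * (T / 2)) ≤ Real.exp T := by
      have h8 : Real.exp T = Real.exp (0.3 * T) * Real.exp (1.4 * (T / 2)) := by
        rw [← Real.exp_add]
        congr 1
        ring
      have h9 := Real.add_one_le_exp (0.3 * T)
      have h10 := Real.exp_pos (1.4 * (T / 2))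
      rw [h8]
      nlinarith
    have h9 : (l : ℝ) ≤ Real.exp (1.4 * (T / 2)) := by
      have h10 := Real.add_one_le_exp (1.4 * (T / 2))
      have h11 : (l : ℝ) ≤ y + 1 := by exact_mod_cast hlP.trans hPle
      linarith
    have h10 : ((4 ^ y + l : ℕ) : ℝ) ≤ ((x + 1 : ℕ) : ℝ) := by
      push_cast
      rw [hxT]
      linarith
    exact_mod_cast h10
  obtain ⟨a, ha1, ha2, ha3⟩ := low_core hlK hx0 hfit
  have hrun : IsRun x a l := by
    refine ⟨ha1, ha2, fun n hn1 hn2 => ?_⟩
    have h5 : (K : ℝ) ≤ n.primeFactors.card := by exact_mod_cast ha3 n hn1 hn2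
    refine lt_of_le_of_lt ?_ (hKgt.trans_le h5)
    have h6 : (x : ℝ) ≤ n := by exact_mod_cast ha1.trans hn1
    have h7 : (n : ℝ) ≤ ((2 * x : ℕ) : ℝ) := by exact_mod_cast (by omega : n ≤ 2 * x)
    have h8 : 0 < (x : ℝ) := by exact_mod_cast hx0
    have h9 : T ≤ Real.log n := by
      rw [← hx]
      exact Real.log_le_log h8 h6
    exact Real.log_le_log (by linarith) (Real.log_le_log (by linarith) h7)
  have hfin : (l : ℝ) ≤ L x := by exact_mod_cast le_L hrun
  refine le_trans ?_ hfin
  have hlt : 0 < Real.log T := by linarith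
  have h5 : (P : ℝ) ≤ (l + 1) * K := by exact_mod_cast hlK2.le
  have h6 : (P : ℝ) * Real.log T ≤ (l + 1) * (1.1 * Real.log T) * Real.log T := by
    apply mul_le_mul_of_nonneg_right _ hlt.le
    exact h5.trans (mul_le_mul_of_nonneg_left hKle (by positivity))
  rw [div_le_iff₀ (by positivity)]
  nlinarith

theorem upper_aux {C : ℝ}
    (hC : ∀ N : ℕ, 3 ≤ N → |∑ p ∈ (Finset.Icc 1 N).filter Nat.Prime, (1 : ℝ) / p
      - Real.log (Real.log N)| ≤ C) :
    ∀ᶠ T : ℝ in atTop, ∀ x : ℕ, Real.log x = T →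
    (L x : ℝ) ≤ Real.exp (16 * T / Real.log (Real.log T)) := by
  have e0 : Tendsto (fun T : ℝ => Real.log (Real.log T)) atTop atTop :=
    Real.tendsto_log_atTop.comp Real.tendsto_log_atTop
  have e1 : ∀ᶠ T : ℝ in atTop, 2 * (2 * C + 4) + 1 ≤ Real.log (Real.log T) :=
    e0.eventually_ge_atTop _
  have e2 : ∀ᶠ T : ℝ in atTop, 1 ≤ Real.log (Real.log T) := e0.eventually_ge_atTop _
  have e3 : ∀ᶠ T : ℝ in atTop, ‖Real.log T‖ ≤ 1 * ‖T ^ (1 / 2 : ℝ)‖ :=
    (isLittleO_log_rpow_atTop (by norm_num : (0 : ℝ) < 1 / 2)).bound (by norm_num)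
  filter_upwards [e1, e2, e3, eventually_ge_atTop 1000000] with T h1 h2 h3 h4 x hx
  by_contra hcon
  push Not at hcon
  have hT0 : 0 < T := by linarith
  have hx0 : 0 < x := by
    rcases Nat.eq_zero_or_pos x with h | h
    · rw [h] at hx
      simp at hx
      linarith
    · exact h
  have hxT : (x : ℝ) = Real.exp T := by
    rw [← hx, Real.exp_log (by exact_mod_cast hx0)]
  obtain ⟨a, ha1, ha2, ha3⟩ := L_mem x
  set l := L x with hl
  set R := Real.log (Real.log T) with hR
  have hR0 : 0 < R := by linarith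
  have hl0 : (0 : ℝ) < l := lt_trans (Real.exp_pos _) hcon
  set G := Real.log l with hG
  have hGl : (l : ℝ) = Real.exp G := by rw [hG, Real.exp_log hl0]
  have hGT : 16 * T / R < G := by
    rw [hG, Real.lt_log_iff_exp_lt hl0]
    exact hcon
  -- size of the logarithms
  set s := T ^ (1 / 2 : ℝ) with hs
  have hss : s * s = T := by
    rw [hs, ← Real.rpow_add hT0]
    norm_num
  have hs0 : 0 < s := by positivity
  have hs1 : 1000 ≤ s := by nlinarith
  have hlogT1 : 1 < Real.log T := by
    by_contra hc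
    push Not at hc
    have : Real.log (Real.log T) ≤ 0 := by
      rcases le_or_gt 0 (Real.log T) with h | h
      · exact Real.log_nonpos h hc
      · have := Real.log_nonneg (by linarith : (1 : ℝ) ≤ T)
        linarith
    linarith
  rw [Real.norm_of_nonneg (by linarith), Real.norm_of_nonneg hs0.le, one_mul] at h3
  have hRlog : R ≤ Real.log T := by
    have := Real.log_le_sub_one_of_pos (by linarith : 0 < Real.log T)
    linarith
  have hRs : R ≤ s := hRlog.trans h3
  have hGs : 16 * s ≤ G := by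
    have h5 : 16 * s ≤ 16 * T / R := by
      rw [le_div_iff₀ hR0]
      nlinarith
    linarith
  set w := ⌊G / 8⌋₊ with hw
  have hw1 : (w : ℝ) ≤ G / 8 := Nat.floor_le (by linarith)
  have hw2 : G / 8 - 1 < w := by
    have := Nat.lt_floor_add_one (G / 8)
    linarith
  have hws : s ≤ w := by linarith
  have hw3 : 3 ≤ w := by
    have : (3 : ℝ) ≤ w := by linarith
    exact_mod_cast this
  have hm0 : 0 < primorial w := primorial_pos w
  have hm : (primorial w : ℝ) ≤ Real.exp (G / 4) := by
    have h5 : (primorial w : ℝ) ≤ 4 ^ w := by exact_mod_cast primorial_le_four_pow w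
    refine h5.trans ((four_pow_le hw1).trans (Real.exp_le_exp.2 (by linarith)))
  set N := l / primorial w with hN
  have hNm : N * primorial w ≤ l := Nat.div_mul_le_self _ _
  have hNm2 : l < (N + 1) * primorial w := by
    have := Nat.lt_div_mul_add hm0 (a := l)
    rw [← hN] at this
    linarith
  have hNbig : Real.exp (G / 2) ≤ N := by
    have h5 : (l : ℝ) ≤ (N + 1) * primorial w := by exact_mod_cast hNm2.le
    have h6 : (l : ℝ) ≤ (N + 1) * Real.exp (G / 4) :=
      h5.trans (mul_le_mul_of_nonneg_left hm (by positivity))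
    have h7 : Real.exp G = Real.exp (G / 2) * Real.exp (G / 4) * Real.exp (G / 4) := by
      rw [← Real.exp_add, ← Real.exp_add]
      congr 1
      ring
    rw [hGl, h7] at h6
    have h8 := Real.exp_pos (G / 4)
    have h9 : Real.exp (G / 2) * Real.exp (G / 4) ≤ N + 1 := le_of_mul_le_mul_right h6 h8
    have h10 := Real.add_one_le_exp (G / 4)
    have h11 := Real.add_one_le_exp (G / 2)
    nlinarith
  have hN1 : (1 : ℝ) < N := by
    have := Real.add_one_le_exp (G / 2)
    linarith
  have hlogN : G / 2 ≤ Real.log N := by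
    rw [Real.le_log_iff_exp_le (by linarith)]
    exact hNbig
  have hwN : w ≤ N := by
    have h5 := Real.add_one_le_exp (G / 2)
    have h6 : (w : ℝ) ≤ N := by linarith
    exact_mod_cast h6
  have hx3 : 3 ≤ x := by
    have h5 := Real.add_one_le_exp T
    have h6 : (3 : ℝ) ≤ x := by rw [hxT]; linarith
    exact_mod_cast h6
  have key := core hC hx3 ha1 ha2 ha3 hw3 hwN hNm
  rw [hx] at key
  have hlog2x : Real.log ((2 * x : ℕ) : ℝ) ≤ 2 * T := by
    push_cast
    rw [Real.log_mul (by norm_num) (by positivity), hx]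
    have := Real.log_two_lt_d9
    linarith
  have hNx : N ≤ 2 * x := by
    have h5 : N ≤ l := Nat.div_le_self _ _
    omega
  have k1 : Real.log (Real.log N) ≤ Real.log T + 1 := by
    have h5 : Real.log N ≤ 2 * T := by
      refine le_trans (Real.log_le_log (by linarith) ?_) hlog2x
      exact_mod_cast hNx
    have h6 : Real.log (Real.log N) ≤ Real.log (2 * T) := Real.log_le_log (by linarith) h5
    rw [Real.log_mul (by norm_num) (by positivity)] at h6
    have := Real.log_two_lt_d9
    linarith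
  have k2 : Real.log ((2 * x : ℕ) : ℝ) / Real.log N ≤ R / 4 := by
    rw [div_le_iff₀ (by linarith)]
    have h5 : 16 * T ≤ G * R := by
      rw [div_lt_iff₀ hR0] at hGT
      exact hGT.le
    nlinarith
  have k3 : R - 1 ≤ Real.log (Real.log w) := by
    have h5 : Real.log T / 2 ≤ Real.log w := by
      have h6 : Real.log s ≤ Real.log w := Real.log_le_log hs0 hws
      have h7 : Real.log T = Real.log s + Real.log s := by
        rw [← Real.log_mul hs0.ne' hs0.ne', hss]
      linarith
    have h6 : Real.log (Real.log T / 2) ≤ Real.log (Real.log w) :=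
      Real.log_le_log (by linarith) h5
    rw [Real.log_div (by linarith) (by norm_num)] at h6
    have := Real.log_two_lt_d9
    linarith
  linarith

/-- Two-sided bounds for `L(x)`: for all large `x`,
`(1/4) log x / (log log x)^2 ≤ L(x) ≤ x^(16 / log log log x)`. -/
theorem result : ∃ X : ℕ, ∀ x : ℕ, X ≤ x →
    1 / 4 * Real.log x / (Real.log (Real.log x)) ^ 2 ≤ L x ∧
      (L x : ℝ) ≤ (x : ℝ) ^ (16 / Real.log (Real.log (Real.log x))) := by
  obtain ⟨C, hC⟩ := Pool.Agent.Erdos456.Mert.mertens_inv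
  have ht : Tendsto (fun x : ℕ => Real.log (x : ℝ)) atTop atTop :=
    Real.tendsto_log_atTop.comp tendsto_natCast_atTop_atTop
  have h1 := ht.eventually lower_aux
  have h2 := ht.eventually (upper_aux hC)
  obtain ⟨X, hX⟩ := eventually_atTop.1 (h1.and (h2.and (eventually_ge_atTop 1)))
  refine ⟨X, fun x hx => ?_⟩
  obtain ⟨h3, h4, h5⟩ := hX x hx
  refine ⟨h3 x rfl, (h4 x rfl).trans (le_of_eq ?_)⟩
  have hx0 : (0 : ℝ) < x := by exact_mod_cast h5
  rw [Real.rpow_def_of_pos hx0]
  congr 1
  ring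

end Pool.Agent.Results.MP_d5b6a6_nt.TwoSided
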